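import Pool.Agent.W610.HY.Stm3

set_option autoImplicit false

namespace Pool.Agent.W830.HY.NZM

open Pool.Agent.W610.HY
open MeasureTheory Set Metric Filter Topology

/-- distance bound on the circle -/
theorem dist_lb (c : ℂ) (r : ℝ) (hr : 0 < r) (θ : ℝ) (w : ℂ) :
    r - ‖w - c‖ ≤ ‖circleMap c r θ - w‖ := by
  have h1 : ‖circleMap c r θ - c‖ = r := by
    simp [circleMap, abs_of_pos hr]
  have h2 : circleMap c r θ - c = (circleMap c r θ - w) + (w - c) := by ring
  have h3 := norm_add_le (circleMap c r θ - w) (w - c)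
  rw [← h2, h1] at h3
  linarith

theorem sub_ne (c : ℂ) (r : ℝ) (hr : 0 < r) (θ : ℝ) (w : ℂ) (hw : w ∈ ball c r) :
    circleMap c r θ - w ≠ 0 := by
  have h1 := dist_lb c r hr θ w
  rw [mem_ball, dist_eq_norm] at hw
  intro h
  rw [h, norm_zero] at h1
  linarith

theorem cont_inv (c : ℂ) (r : ℝ) (hr : 0 < r) (w : ℂ) (hw : w ∈ ball c r) :
    Continuous (fun θ : ℝ => (circleMap c r θ - w)⁻¹) :=
  ((continuous_circleMap c r).sub continuous_const).inv₀ (fun θ => sub_ne c r hr θ w hw)

theorem intK {E : Type} [NormedAddCommGroup E] [NormedSpace ℂ E] (c : ℂ) (r : ℝ) (hr : 0 < r)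
    (k : ℝ → E) (hk : IntervalIntegrable k volume 0 (2 * Real.pi)) (w : ℂ) (hw : w ∈ ball c r) :
    IntervalIntegrable (fun θ => (circleMap c r θ - w)⁻¹ • k θ) volume 0 (2 * Real.pi) :=
  hk.continuousOn_smul (cont_inv c r hr w hw).continuousOn

theorem intK2 {E : Type} [NormedAddCommGroup E] [NormedSpace ℂ E] (c : ℂ) (r : ℝ) (hr : 0 < r)
    (k : ℝ → E) (hk : IntervalIntegrable k volume 0 (2 * Real.pi)) (w : ℂ) (hw : w ∈ ball c r) :
    IntervalIntegrable (fun θ => (((circleMap c r θ - w)⁻¹) ^ 2) • k θ) volume 0 (2 * Real.pi) :=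
  hk.continuousOn_smul ((cont_inv c r hr w hw).pow 2).continuousOn

theorem diffK {E : Type} [NormedAddCommGroup E] [NormedSpace ℂ E] [CompleteSpace E] (c : ℂ)
    (r : ℝ) (hr : 0 < r) (k : ℝ → E) (hk : IntervalIntegrable k volume 0 (2 * Real.pi)) (w : ℂ)
    (hw : w ∈ ball c r) :
    DifferentiableAt ℂ
      (fun l : ℂ => ∫ θ in (0:ℝ)..(2 * Real.pi), (circleMap c r θ - l)⁻¹ • k θ) w := by
  have hw' : ‖w - c‖ < r := by rwa [mem_ball, dist_eq_norm] at hw
  obtain ⟨ε, hε, hε2⟩ : ∃ ε : ℝ, 0 < ε ∧ ‖w - c‖ + 2 * ε = r :=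
    ⟨(r - ‖w - c‖) / 2, by linarith, by ring⟩
  have hin : ∀ l ∈ ball w ε, ‖l - c‖ ≤ r - ε := by
    intro l hl
    rw [mem_ball, dist_eq_norm] at hl
    have h1 : l - c = (l - w) + (w - c) := by ring
    have h2 := norm_add_le (l - w) (w - c)
    rw [← h1] at h2
    linarith
  have hin' : ∀ l ∈ ball w ε, l ∈ ball c r := by
    intro l hl
    rw [mem_ball, dist_eq_norm]
    have := hin l hl
    linarith
  have hlow : ∀ l ∈ ball w ε, ∀ θ : ℝ, ε ≤ ‖circleMap c r θ - l‖ := by
    intro l hl θ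
    have h1 := dist_lb c r hr θ l
    have h2 := hin l hl
    linarith
  have key := intervalIntegral.hasDerivAt_integral_of_dominated_loc_of_deriv_le
    (𝕜 := ℂ) (μ := volume) (a := 0) (b := 2 * Real.pi)
    (F := fun (l : ℂ) (θ : ℝ) => (circleMap c r θ - l)⁻¹ • k θ)
    (F' := fun (l : ℂ) (θ : ℝ) => (((circleMap c r θ - l)⁻¹) ^ 2) • k θ)
    (bound := fun θ => (ε⁻¹) ^ 2 * ‖k θ‖) (x₀ := w) (s := ball w ε)
    (ball_mem_nhds w hε)
    (by
      filter_upwards [ball_mem_nhds w hε] with l hl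
      exact ((intK c r hr k hk l (hin' l hl)).def').aestronglyMeasurable)
    (intK c r hr k hk w hw)
    (((intK2 c r hr k hk w hw).def').aestronglyMeasurable)
    (by
      refine Filter.Eventually.of_forall (fun θ _ l hl => ?_)
      rw [norm_smul, norm_pow, norm_inv]
      have h1 := hlow l hl θ
      have h2 : ‖circleMap c r θ - l‖⁻¹ ≤ ε⁻¹ := inv_anti₀ hε h1
      have h3 : 0 ≤ ‖circleMap c r θ - l‖⁻¹ := by positivity
      have h4 : (‖circleMap c r θ - l‖⁻¹) ^ 2 ≤ (ε⁻¹) ^ 2 := by gcongr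
      exact mul_le_mul_of_nonneg_right h4 (norm_nonneg _))
    (hk.norm.const_mul _)
    (by
      refine Filter.Eventually.of_forall (fun θ _ l hl => ?_)
      have hne : circleMap c r θ - l ≠ 0 := sub_ne c r hr θ l (hin' l hl)
      have h1 : HasDerivAt (fun y : ℂ => circleMap c r θ - y) (-1) l := by
        simpa using (hasDerivAt_id l).const_sub (circleMap c r θ)
      have h2 : HasDerivAt (fun y : ℂ => (circleMap c r θ - y)⁻¹)
          (((circleMap c r θ - l)⁻¹) ^ 2) l := by
        have h3 := h1.inv hne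
        have e : (- -1 / (circleMap c r θ - l) ^ 2 : ℂ) = ((circleMap c r θ - l)⁻¹) ^ 2 := by
          rw [neg_neg, one_div, inv_pow]
        rw [e] at h3
        exact h3
      exact h2.smul_const (k θ))
  exact key.2.differentiableAt

theorem main : NZM := by
  intro E _ _ _ T x P f c r h hf hP hG hIV
  have hr := hG.pos
  have hpi : (0:ℝ) ≤ 2 * Real.pi := by positivity
  have hu : ∀ θ : ℝ, ‖circleMap 0 1 θ‖ = 1 := by intro θ; simp
  have hmu : Measurable (fun θ : ℝ => circleMap 0 1 θ) := (continuous_circleMap 0 1).measurable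
  have hmk : Measurable (fun θ : ℝ => h θ * circleMap 0 1 θ) := hG.meas.mul hmu
  have hmf : StronglyMeasurable (fun θ : ℝ => f (circleMap c r θ)) :=
    hf.comp_measurable (continuous_circleMap c r).measurable
  have hk0 : IntervalIntegrable (fun θ : ℝ => h θ * circleMap 0 1 θ) volume 0 (2 * Real.pi) := by
    rw [intervalIntegrable_iff_integrableOn_Ioc_of_le hpi]
    refine Integrable.mono' (g := fun _ => (1:ℝ)) (integrable_const 1)
      hmk.aestronglyMeasurable ?_
    filter_upwards [hG.le_one] with θ hθ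
    rw [norm_mul, hu, mul_one]
    exact hθ
  have hk1 : IntervalIntegrable (fun θ : ℝ => (h θ * circleMap 0 1 θ) • f (circleMap c r θ))
      volume 0 (2 * Real.pi) := by
    rw [intervalIntegrable_iff_integrableOn_Ioc_of_le hpi]
    refine Integrable.mono' (g := fun _ => (1:ℝ)) (integrable_const 1)
      (hmk.stronglyMeasurable.smul hmf).aestronglyMeasurable ?_
    filter_upwards [hG.bound] with θ hθ
    rw [norm_smul, norm_mul, hu, mul_one]
    exact hθ
  set Φ : ℂ → E := fun l => ∫ θ in (0:ℝ)..(2 * Real.pi),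
    (circleMap c r θ - l)⁻¹ • ((h θ * circleMap 0 1 θ) • f (circleMap c r θ)) with hΦ
  set I : ℂ → ℂ := fun l => ∫ θ in (0:ℝ)..(2 * Real.pi),
    (circleMap c r θ - l)⁻¹ • (h θ * circleMap 0 1 θ) with hI
  have dΦ : ∀ w ∈ ball c r, DifferentiableAt ℂ Φ w := fun w hw => diffK c r hr _ hk1 w hw
  have dI : ∀ w ∈ ball c r, DifferentiableAt ℂ I w := fun w hw => diffK c r hr _ hk0 w hw
  have ident : ∀ w ∈ ball c r, w • Φ w - T (Φ w) = I w • x := by
    intro w hw
    have i1 := intK c r hr _ hk1 w hw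
    have i0 := intK c r hr _ hk0 w hw
    have e1 : w • Φ w = ∫ θ in (0:ℝ)..(2 * Real.pi),
        w • ((circleMap c r θ - w)⁻¹ • ((h θ * circleMap 0 1 θ) • f (circleMap c r θ))) := by
      rw [intervalIntegral.integral_smul]
    have e2 : T (Φ w) = ∫ θ in (0:ℝ)..(2 * Real.pi),
        T ((circleMap c r θ - w)⁻¹ • ((h θ * circleMap 0 1 θ) • f (circleMap c r θ))) :=
      (ContinuousLinearMap.intervalIntegral_comp_comm T i1).symm
    have i2 : IntervalIntegrable (fun θ : ℝ =>
        w • ((circleMap c r θ - w)⁻¹ • ((h θ * circleMap 0 1 θ) • f (circleMap c r θ))))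
        volume 0 (2 * Real.pi) := i1.smul w
    have i3 : IntervalIntegrable (fun θ : ℝ =>
        T ((circleMap c r θ - w)⁻¹ • ((h θ * circleMap 0 1 θ) • f (circleMap c r θ))))
        volume 0 (2 * Real.pi) := by
      rw [intervalIntegrable_iff_integrableOn_Ioc_of_le hpi] at i1 ⊢
      exact T.integrable_comp i1
    have e3 : I w • x = ∫ θ in (0:ℝ)..(2 * Real.pi),
        ((circleMap c r θ - w)⁻¹ • (h θ * circleMap 0 1 θ)) • x := by
      rw [intervalIntegral.integral_smul_const]
    have i4 : IntervalIntegrable (fun θ : ℝ =>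
        ((circleMap c r θ - w)⁻¹ • (h θ * circleMap 0 1 θ)) • x) volume 0 (2 * Real.pi) := by
      rw [intervalIntegrable_iff_integrableOn_Ioc_of_le hpi] at i0 ⊢
      exact i0.smul_const x
    have e4 : w • Φ w - T (Φ w) = I w • x - IV f c r h := by
      rw [e1, e2, ← intervalIntegral.integral_sub i2 i3, e3, IV,
        ← intervalIntegral.integral_sub i4 hk1]
      refine intervalIntegral.integral_congr_ae ?_
      have hres := hG.res
      rw [ae_restrict_iff' measurableSet_Ioc] at hres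
      filter_upwards [hres] with θ hθ hmem
      rw [uIoc_of_le hpi] at hmem
      have hz := hP _ (hθ hmem)
      have hne : circleMap c r θ - w ≠ 0 := sub_ne c r hr θ w hw
      have hTf : T (f (circleMap c r θ)) = circleMap c r θ • f (circleMap c r θ) - x := by
        rw [← hz]; abel
      simp only [map_smul, hTf, smul_eq_mul]
      generalize circleMap c r θ = z at hne
      generalize h θ * circleMap 0 1 θ = k
      have h7 : (z - w)⁻¹ * (k * z) = w * ((z - w)⁻¹ * k) + k := by
        field_simp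
        ring
      simp only [smul_sub, smul_smul]
      rw [h7, add_smul]
      abel
    rw [e4, hIV, sub_zero]
  have hIc : I c ≠ 0 := by
    have h1 : I c = (r:ℂ)⁻¹ * ∫ θ in (0:ℝ)..(2 * Real.pi), h θ := by
      rw [hI]
      simp only
      rw [← intervalIntegral.integral_const_mul]
      refine intervalIntegral.integral_congr (fun θ _ => ?_)
      have h2 : circleMap c r θ - c = (r:ℂ) * circleMap 0 1 θ := by simp [circleMap]
      have h3 : circleMap 0 1 θ ≠ 0 := by
        intro h0
        have := hu θ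
        rw [h0, norm_zero] at this
        exact zero_ne_one this
      have h4 : (r:ℂ) ≠ 0 := by exact_mod_cast hr.ne'
      simp only [smul_eq_mul]
      rw [h2]
      field_simp
    rw [h1]
    refine mul_ne_zero (inv_ne_zero ?_) hG.ne
    exact_mod_cast hr.ne'
  have hcc : c ∈ ball c r := mem_ball_self hr
  have hcont : ContinuousAt I c := (dI c hcc).continuousAt
  have hev : ∀ᶠ w in 𝓝 c, I w ≠ 0 := hcont.eventually_ne hIc
  obtain ⟨δ₀, hδ₀, hδ₀'⟩ := Metric.eventually_nhds_iff_ball.1 hev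
  refine ⟨min δ₀ r, fun w => (I w)⁻¹ • Φ w, lt_min hδ₀ hr, ?_, ?_⟩
  · intro w hw
    have h1 : w ∈ ball c r := ball_subset_ball (min_le_right _ _) hw
    have h2 : w ∈ ball c δ₀ := ball_subset_ball (min_le_left _ _) hw
    exact (((dI w h1).inv (hδ₀' w h2)).smul (dΦ w h1)).differentiableWithinAt
  · intro w hw
    have h1 : w ∈ ball c r := ball_subset_ball (min_le_right _ _) hw
    have h2 : w ∈ ball c δ₀ := ball_subset_ball (min_le_left _ _) hw
    have h3 := ident w h1
    have h4 : I w ≠ 0 := hδ₀' w h2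
    show w • ((I w)⁻¹ • Φ w) - T ((I w)⁻¹ • Φ w) = x
    rw [map_smul, smul_comm w, ← smul_sub, h3, smul_smul, inv_mul_cancel₀ h4, one_smul]

end Pool.Agent.W830.HY.NZM
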